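import Pool.Agent.TH54.BExt
import Pool.Agent.TH54.BU.Iter
import Pool.Agent.Y321.HM.Ext
import Pool.Agent.Y321.HM.Gen
import Pool.Agent.Q87.TM.Quot

/-!
# MP_fd686d_al: locally compact hereditarily minimal groups with non-trivial centre which are not
hereditarily totally minimal

The groups are the central extensions of free Burnside groups of infinite rank by `ℤ_p` of the
starting file `MP_adec7c_al.BurnsideQuotients`. The quotient by the (open) centre is a discrete free
Burnside group of infinite rank, and this group has a strictly coarser Hausdorff group topology: the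
weakest topology for which the retractions on the subgroups generated by finitely many letters are
continuous.
-/

set_option autoImplicit false

namespace Pool.Agent.Results.MP_fd686d_al.NotTotallyMinimal

open Pool.Agent.TH54 Pool.Agent.TH54.BU Pool.Agent.Y321.HM

universe u

/-- a topological group is minimal if it has no strictly coarser Hausdorff group topology -/
def Minimal (G : Type u) [Group G] [τ : TopologicalSpace G] : Prop :=
  ∀ σ : TopologicalSpace G, @IsTopologicalGroup G σ _ → @T2Space G σ → τ ≤ σ → σ = τ

/-- a topological group is totally minimal if its quotients by closed normal subgroups are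
minimal -/
def TotallyMinimal (G : Type u) [Group G] [TopologicalSpace G] : Prop :=
  ∀ (N : Subgroup G) [N.Normal], IsClosed (N : Set G) → Minimal (G ⧸ N)

/-- hereditarily minimal: all subgroups are minimal -/
def HereditarilyMinimal (G : Type u) [Group G] [TopologicalSpace G] : Prop :=
  ∀ H : Subgroup G, Minimal H

/-- hereditarily totally minimal: all subgroups are totally minimal -/
def HereditarilyTotallyMinimal (G : Type u) [Group G] [TopologicalSpace G] : Prop :=
  ∀ H : Subgroup G, TotallyMinimal H

/-- For every sufficiently large prime `p` and every infinite set `I` there is a locally compact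
Hausdorff topological group `G` with non-trivial centre which is hereditarily minimal but not
hereditarily totally minimal; `G` is not even totally minimal. The centre is open and topologically
isomorphic to `ℤ_p`, and `G / Z(G)` has the cardinality of `I`. -/
theorem result :
    ∃ p0 : ℕ, ∀ (p : ℕ) [Fact p.Prime], p0 ≤ p → ∀ (I : Type) [Infinite I],
      ∃ (G : Type) (_ : Group G) (_ : TopologicalSpace G), IsTopologicalGroup G ∧ T2Space G ∧
        LocallyCompactSpace G ∧ Subgroup.center G ≠ ⊥ ∧ HereditarilyMinimal G ∧
        ¬ HereditarilyTotallyMinimal G ∧ ¬ TotallyMinimal G ∧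
        IsOpen (Subgroup.center G : Set G) ∧
        Nonempty (Multiplicative ℤ_[p] ≃ₜ* Subgroup.center G) ∧
        Nonempty (G ⧸ Subgroup.center G ≃ I) := by
  obtain ⟨p0, h⟩ := Pool.Agent.TH54.BU.burnside
  refine ⟨p0, fun p hp hle I _ => ?_⟩
  have hB : Burn p := h p hp.out hle
  obtain ⟨M, hG, hTop, hTG, hT2, htf, hopen, hZ, ⟨e⟩, -⟩ := exists_ext_gen hB I
  have hinf : Infinite (FreeGroup I ⧸ powSub (FreeGroup I) p) := infinite_burn hp.out hB I
  have hinf' : Infinite (M ⧸ Subgroup.center M) := e.toEquiv.infinite_iff.2 hinf
  have hexp : ∃ n : ℕ, 0 < n ∧ ∀ x : M ⧸ Subgroup.center M, x ^ n = 1 := by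
    refine ⟨p, hp.out.pos, fun x => ?_⟩
    apply e.injective
    rw [map_pow, map_one]
    exact Pool.Agent.Q87.TM.pow_eq_one _
  obtain ⟨h1, h2, h3, h4, h5, -⟩ :=
    bounded_exponent_extensions p M htf hopen hZ hexp hinf'
  obtain ⟨f⟩ := card_burn hB I
  have hcl : IsClosed (Subgroup.center M : Set M) := Subgroup.isClosed_of_isOpen _ hopen
  -- the homomorphism on the free Burnside group
  let π : M →* FreeGroup I ⧸ powSub (FreeGroup I) p :=
    e.toMonoidHom.comp (QuotientGroup.mk' (Subgroup.center M))
  have hπs : Function.Surjective π := e.surjective.comp (QuotientGroup.mk'_surjective _)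
  have hπk : π.ker = Subgroup.center M := by
    ext g
    rw [MonoidHom.mem_ker]
    show e (g : M ⧸ Subgroup.center M) = 1 ↔ _
    rw [← QuotientGroup.eq_one_iff, ← map_one e, e.injective.eq_iff]
  have hnt : ¬ TotallyMinimal M := fun hc =>
    Pool.Agent.Q87.TM.quot_not_minimal hp.out.one_lt (Subgroup.center M) hopen π hπs hπk
      (hc (Subgroup.center M) hcl)
  have hnh : ¬ HereditarilyTotallyMinimal M := by
    intro hc
    have hval : Continuous (fun x : (⊤ : Subgroup M) => (x : M)) := continuous_subtype_val
    have hopen' : IsOpen ((Subgroup.center M).subgroupOf ⊤ : Set (⊤ : Subgroup M)) :=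
      hopen.preimage hval
    have hcl' : IsClosed ((Subgroup.center M).subgroupOf ⊤ : Set (⊤ : Subgroup M)) :=
      hcl.preimage hval
    refine Pool.Agent.Q87.TM.quot_not_minimal hp.out.one_lt ((Subgroup.center M).subgroupOf ⊤)
      hopen' (π.comp (Subgroup.subtype ⊤)) ?_ ?_ (hc ⊤ ((Subgroup.center M).subgroupOf ⊤) hcl')
    · intro b
      obtain ⟨g, hg⟩ := hπs b
      exact ⟨⟨g, Subgroup.mem_top g⟩, hg⟩
    · rw [← hπk]
      rfl
  exact ⟨M, hG, hTop, hTG, hT2, h2, h5, h1, hnh, hnt, hopen, hZ, ⟨e.toEquiv.trans f⟩⟩

end Pool.Agent.Results.MP_fd686d_al.NotTotallyMinimal
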